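import Mathlib
import Pool.Agent.H26.BL6

set_option autoImplicit false

namespace Pool.Agent.Results.MP_d0fcce_an.Proof

open H26 BL0

theorem result (A : BL) (hA : TopologicalSpace.SeparableSpace A) (h : Semiproj A) : Proj A :=
  BL6.semiproj_proj h

end Pool.Agent.Results.MP_d0fcce_an.Proof
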